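import Pool.Agent.N207.CF.Main
import Pool.Agent.N27.CF.FIB
import Pool.Agent.N803.CF.Irr
import Pool.Agent.N227.CF.Up
import Pool.Agent.N227.CF.Low

/-!
# Restriction of scalars: the periods of all conjugates of the fibres of an arbitrary family

Let `M` be a motive over a smooth variety `S` over a number field `K`, with an étale map from `S` to the affine space
`A ^ X`, or a tuple of such motives with independent variables. For every complex embedding `φ` of `K` the period matrix
of the conjugate family `M ^ φ` is locally a matrix `Y φ` of analytic functions of the coordinates, and the algebraic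
functions on the conjugate of `S` are generated by further analytic functions `θ φ`. The periods of the restriction of
scalars from `K` to the rational numbers of the fibre `M_s`, for a point `s` with coordinates in `K`, are the entries of
all matrices `Y φ (φ s)`. We treat arbitrary analytic `Y φ` and `θ φ`; nothing is assumed on their monodromy.
-/

set_option autoImplicit false

open Matrix Filter NumberField

namespace Pool.Agent.Results.MP_f11a48_ag.AllConjugates

/-! ### Families and their monodromy -/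

/-- A family: a matrix `Y` and a vector `θ` of analytic functions on a connected nonempty open set `U` -/
structure Family {X : Type} [Fintype X] {n r : ℕ} (U : Set (X → ℂ)) (Y : (X → ℂ) → Matrix (Fin n) (Fin n) ℂ)
    (θ : (X → ℂ) → Fin r → ℂ) : Prop where
  isOpen : IsOpen U
  connected : IsPreconnected U
  nonempty : U.Nonempty
  analytic : ∀ a b, AnalyticOnNhd ℂ (fun x => Y x a b) U
  analytic' : ∀ i, AnalyticOnNhd ℂ (fun x => θ x i) U

/-- `(F, τ)` on `V` is obtained from `(Y, θ)` on `U` by analytic continuation along a chain of connected sets -/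
inductive Continuation {X : Type} [Fintype X] {n r : ℕ} (U : Set (X → ℂ))
    (Y : (X → ℂ) → Matrix (Fin n) (Fin n) ℂ) (θ : (X → ℂ) → Fin r → ℂ) :
    Set (X → ℂ) → ((X → ℂ) → Matrix (Fin n) (Fin n) ℂ) → ((X → ℂ) → Fin r → ℂ) → Prop
  | base : Continuation U Y θ U Y θ
  | step {V V' W : Set (X → ℂ)} {F F' : (X → ℂ) → Matrix (Fin n) (Fin n) ℂ} {τ τ' : (X → ℂ) → Fin r → ℂ} :
      Continuation U Y θ V F τ → IsPreconnected V' → (∀ a b, AnalyticOnNhd ℂ (fun x => F' x a b) V') →
      (∀ i, AnalyticOnNhd ℂ (fun x => τ' x i) V') → IsOpen W → W.Nonempty → W ⊆ V → W ⊆ V' →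
      (∀ x ∈ W, F' x = F x ∧ τ' x = τ x) → Continuation U Y θ V' F' τ'

/-- some analytic continuation of `(Y, θ)` on `U` is `(Y g, θ)` on a nonempty open subset of `U` -/
def Monodromy {X : Type} [Fintype X] {n r : ℕ} (U : Set (X → ℂ)) (Y : (X → ℂ) → Matrix (Fin n) (Fin n) ℂ)
    (θ : (X → ℂ) → Fin r → ℂ) (g : Matrix (Fin n) (Fin n) ℂ) : Prop :=
  ∃ (V W : Set (X → ℂ)) (F : (X → ℂ) → Matrix (Fin n) (Fin n) ℂ) (τ : (X → ℂ) → Fin r → ℂ),
    Continuation U Y θ V F τ ∧ IsOpen W ∧ W.Nonempty ∧ W ⊆ V ∧ W ⊆ U ∧ ∀ x ∈ W, F x = Y x * g ∧ τ x = θ x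

/-- the value of a polynomial at a matrix -/
noncomputable def value {n : ℕ} (R : MvPolynomial (Fin n × Fin n) ℂ) (g : Matrix (Fin n) (Fin n) ℂ) : ℂ :=
  MvPolynomial.eval (fun y => g y.1 y.2) R

/-- the Zariski closure of the monodromy -/
def MonodromyGroup {X : Type} [Fintype X] {n r : ℕ} (U : Set (X → ℂ)) (Y : (X → ℂ) → Matrix (Fin n) (Fin n) ℂ)
    (θ : (X → ℂ) → Fin r → ℂ) : Set (Matrix (Fin n) (Fin n) ℂ) :=
  {g | ∀ R, (∀ h, Monodromy U Y θ h → value R h = 0) → value R g = 0}

/-- The identity component: the union of the irreducible subsets `S` of the Zariski closure of the monodromy with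
`1 ∈ S`. Here `S` is irreducible if a product of two polynomials vanishes on `S` only if one of them does. -/
def ConnectedMonodromy {X : Type} [Fintype X] {n r : ℕ} (U : Set (X → ℂ)) (Y : (X → ℂ) → Matrix (Fin n) (Fin n) ℂ)
    (θ : (X → ℂ) → Fin r → ℂ) : Set (Matrix (Fin n) (Fin n) ℂ) :=
  {g | ∃ S : Set (Matrix (Fin n) (Fin n) ℂ), S ⊆ MonodromyGroup U Y θ ∧ 1 ∈ S ∧ g ∈ S ∧
    ∀ P Q, (∀ h ∈ S, value P h * value Q h = 0) → (∀ h ∈ S, value P h = 0) ∨ ∀ h ∈ S, value Q h = 0}

/-! ### Exceptional points -/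

/-- the point with the coordinates `A`, `t` -/
def point {n r : ℕ} (A : Matrix (Fin n) (Fin n) ℂ) (t : Fin r → ℂ) : (Fin n × Fin n) ⊕ Fin r → ℂ :=
  Sum.elim (fun y => A y.1 y.2) t

/-- the points of norm at most `k` at distance at least `1 / k` from the complement of `U` -/
def Inner {X : Type} [Fintype X] (U : Set (X → ℂ)) (k : ℕ) : Set (X → ℂ) := {z | ‖z‖ ≤ k ∧ Metric.ball z (k : ℝ)⁻¹ ⊆ U}

/-- the points with integral coordinates in `K` all of whose conjugates are at most `T` in absolute value -/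
def Points (K X : Type) [Field K] [NumberField K] (T : ℝ) : Set (X → 𝓞 K) := {a | ∀ j, house (a j : K) ≤ T}

variable {K X : Type} [Field K] [NumberField K] [Fintype X] {n r : ℕ}

/-- **The exceptional points**: `s` in `K ^ X`, all of whose conjugates `φ s` are in the compact sets `Inner (U φ) k`,
such that some polynomial `R` in the entries of all matrices `Y φ (φ s)` and vectors `θ φ (φ s)`, `φ` running through the
complex embeddings of `K`, of partial degrees at most `k`, whose coefficients are combinations `∑ ξ i * c i` with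
integers `c i` of `L` all of whose conjugates are at most `T ^ k`, vanishes at `(Y φ (φ s), θ φ (φ s))_φ` but not at all
points `(Y φ (φ s) * g φ, θ φ (φ s))_φ` with `g φ` in the connected monodromy group of `Y φ` for every `φ` -/
def Exceptional (U : (K →+* ℂ) → Set (X → ℂ)) (Y : (K →+* ℂ) → (X → ℂ) → Matrix (Fin n) (Fin n) ℂ)
    (θ : (K →+* ℂ) → (X → ℂ) → Fin r → ℂ) (L : Type) [Field L] [NumberField L] (io : L →+* ℂ) (k : ℕ)
    (ξ : Fin k → ℂ) (T : ℝ) : Set (X → K) :=
  {s | (∀ φ : K →+* ℂ, (fun j => φ (s j)) ∈ Inner (U φ) k) ∧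
    ∃ R : MvPolynomial ((K →+* ℂ) × ((Fin n × Fin n) ⊕ Fin r)) ℂ, (∀ y, R.degreeOf y ≤ k) ∧
    (∀ m, ∃ c : Fin k → 𝓞 L, (∀ i (φ : L →+* ℂ), ‖φ (c i : L)‖ ≤ T ^ (k : ℝ)) ∧
      R.coeff m = ∑ i, ξ i * io (c i : L)) ∧
    MvPolynomial.eval (fun q => point (Y q.1 fun j => q.1 (s j)) (θ q.1 fun j => q.1 (s j)) q.2) R = 0 ∧
    ∃ g : (K →+* ℂ) → Matrix (Fin n) (Fin n) ℂ, (∀ φ, g φ ∈ ConnectedMonodromy (U φ) (Y φ) (θ φ)) ∧
      MvPolynomial.eval (fun q => point ((Y q.1 fun j => q.1 (s j)) * g q.1) (θ q.1 fun j => q.1 (s j)) q.2) R ≠ 0}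

/-! ### Continuation preserves the relations -/

theorem continuation_rel {U V : Set (X → ℂ)}
    {Y F : (X → ℂ) → Matrix (Fin n) (Fin n) ℂ} {θ τ : (X → ℂ) → Fin r → ℂ} (h : Continuation U Y θ V F τ)
    (p : MvPolynomial ((Fin n × Fin n) ⊕ Fin r) (MvPolynomial X ℂ))
    (hp : ∀ z ∈ U, Y890.MV.evM (N207.GS.fn Y θ) z p = 0) : ∀ z ∈ V, Y890.MV.evM (N207.GS.fn F τ) z p = 0 := by
  induction h with
  | base => exact hp
  | @step V V' W F F' τ τ' _ hV' hF' hτ' hW hne hWV hWV' heq ih =>
    obtain ⟨x0, hx0⟩ := hne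
    have h1 := (Y890.MV.evM_an (N207.GS.fn_an hF' hτ') p).eqOn_zero_of_preconnected_of_eventuallyEq_zero hV'
      (hWV' hx0) (by
        filter_upwards [hW.mem_nhds hx0] with z hz
        have h2 := ih z (hWV hz)
        rw [Y890.MV.evM_eq] at h2 ⊢
        have h3 : (fun i => N207.GS.fn F' τ' i z) = fun i => N207.GS.fn F τ i z := by
          rw [N207.GS.fn_pt, N207.GS.fn_pt, (heq z hz).1, (heq z hz).2]
        rw [h3]
        exact h2)
    exact fun z hz => h1 hz

/-- **The periods of all conjugates of almost all fibres.** Let `K` be a number field, and for every complex embedding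
`φ` of `K` let `(Y φ, θ φ)` be any family of analytic matrices and vectors on a connected nonempty open set `U φ`.

There are `ω → ∞` and `C` such that for all large `T`, all number fields `L` of degree at most `ω T`, with an embedding
in the complex numbers such that `L` contains all conjugates of `K`, all complex numbers `ξ i`, `i < ω T`, and all
integral points `b` of `K` of house at most `T` with nonzero coordinates, the proportion of the integral points `a` of
`K` of house at most `T` such that `a / b` is exceptional is at most `C T ^ (-1 + 2 / ω T)`. So for 100 percent of the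
points `s = a / b` all relations of growing degree and height between the numbers `Y φ (φ s)`, `θ φ (φ s)`, for all `φ`
together, are invariant under the product of the connected monodromy groups of the `Y φ`. -/
theorem result (K X : Type) [Field K] [NumberField K] [Fintype X] [DecidableEq X] [Nonempty X] (n r : ℕ)
    (U : (K →+* ℂ) → Set (X → ℂ)) (Y : (K →+* ℂ) → (X → ℂ) → Matrix (Fin n) (Fin n) ℂ)
    (θ : (K →+* ℂ) → (X → ℂ) → Fin r → ℂ) (h : ∀ φ, Family (U φ) (Y φ) (θ φ)) :
    ∃ (ω : ℝ → ℕ) (C T₀ : ℝ), Tendsto ω atTop atTop ∧ Monotone ω ∧ ∀ T, T₀ ≤ T → 0 < ω T ∧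
      (Points K X T).Finite ∧ (Points K X T).Nonempty ∧
      ∀ (L : Type) [Field L] [NumberField L], Module.finrank ℚ L ≤ ω T → ∀ io : L →+* ℂ,
        (∀ φ : K →+* ℂ, ∃ φ' : K →+* L, io.comp φ' = φ) →
        ∀ (ξ : Fin (ω T) → ℂ), ∀ b ∈ Points K X T, (∀ j, b j ≠ 0) →
          ({a ∈ Points K X T | (fun j => (a j : K) / (b j : K)) ∈ Exceptional U Y θ L io (ω T) ξ T}.ncard : ℝ) ≤
            C * T ^ (-1 + 2 / (ω T : ℝ)) * (Points K X T).ncard := by
  obtain ⟨c, C₁, hc, hC₁, hlow⟩ := N227.CF.low K X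
  obtain ⟨ω, C, T₀, hC, h1, h2, h3⟩ := N207.CF.main N803.CF.irr N27.CF.fib N227.CF.up (fun φ => (h φ).connected)
    (fun φ => (h φ).isOpen) (fun φ => (h φ).nonempty) (fun φ => (h φ).analytic) (fun φ => (h φ).analytic')
    (H := fun φ => ConnectedMonodromy (U φ) (Y φ) (θ φ)) (by
      rintro φ g ⟨S, h1, h2, h3, h4⟩
      refine ⟨S, h2, h3, h4, fun g' hg' x hx => ?_⟩
      exact N207.GS.orbit (h φ).connected (h φ).analytic (h φ).analytic' (Monodromy (U φ) (Y φ) (θ φ)) (by
        rintro g ⟨V, W, F, τ, hcn, hW, hne, hWV, hWU, heq⟩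
        exact ⟨W, F, τ, hW, hne, hWU, heq, fun p hp z hz => continuation_rel hcn p hp z (hWV hz)⟩) (h1 hg') hx)
  refine ⟨ω, C / c, max T₀ 1, h1, h2, fun T hT => ⟨(h3 T ((le_max_left _ _).trans hT)).1, ?_, ?_, ?_⟩⟩
  · exact (hlow T ((le_max_right _ _).trans hT)).1
  · refine ⟨0, fun j => ?_⟩
    have h5 : ((0 : X → 𝓞 K) j : K) = 0 := by simp
    have h6 : house (0 : K) = 0 := by simp [house]
    rw [h5, h6]
    exact zero_le_one.trans ((le_max_right _ _).trans hT)
  · intro L _ _ hL io hemb ξ b hb hb0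
    have hT1 : 1 ≤ T := (le_max_right _ _).trans hT
    have hTp : 0 < T := by linarith
    obtain ⟨-, h4⟩ := (h3 T ((le_max_left _ _).trans hT)).2 L hL io hemb ξ b (fun j => ⟨hb0 j, hb j⟩)
    obtain ⟨-, h5, -⟩ := hlow T hT1
    have h6 : ({a ∈ Points K X T | (fun j => (a j : K) / (b j : K)) ∈ Exceptional U Y θ L io (ω T) ξ T}.ncard : ℝ) ≤
        C * T ^ ((Module.finrank ℚ K * Fintype.card X : ℝ) - 1 + 2 * ((ω T : ℝ)⁻¹)) := h4
    refine h6.trans ?_
    have h7 : (T : ℝ) ^ ((Module.finrank ℚ K * Fintype.card X : ℝ) - 1 + 2 * ((ω T : ℝ)⁻¹)) =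
        T ^ (-1 + 2 / (ω T : ℝ)) * T ^ (Module.finrank ℚ K * Fintype.card X) := by
      rw [← Real.rpow_natCast T (Module.finrank ℚ K * Fintype.card X), ← Real.rpow_add hTp]
      congr 1
      push_cast
      ring
    rw [h7]
    have h8 : T ^ (Module.finrank ℚ K * Fintype.card X) ≤ ((Points K X T).ncard : ℝ) / c := by
      rw [le_div_iff₀ hc, mul_comm]
      exact h5
    calc C * (T ^ (-1 + 2 / (ω T : ℝ)) * T ^ (Module.finrank ℚ K * Fintype.card X)) ≤
          C * (T ^ (-1 + 2 / (ω T : ℝ)) * (((Points K X T).ncard : ℝ) / c)) :=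
          mul_le_mul_of_nonneg_left (mul_le_mul_of_nonneg_left h8 (by positivity)) hC
      _ = _ := by ring

end Pool.Agent.Results.MP_f11a48_ag.AllConjugates
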