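import Pool.Agent.N121.AH.Fin

/-!
# The Grothendieck period conjecture in growing degree and height for 100% of all hyperelliptic curves over `ℚ`

Coefficients `a` give integral polynomials `F_j = ∑ a_(j,k) x ^ k`, `k ≤ n_j + 1`, and the curves `y² = F_j(x)` of
genus `g_j = ⌊n_j / 2⌋` (for odd `n_j = 2 g_j + 1` all hyperelliptic curves of genus `g_j` over `ℚ`, for even `n_j`
those with a rational Weierstrass point at infinity). They are ordered by height: `|a_(j,k)| ≤ T`. The motivic torsor of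
the product of the curves (restricted to the spaces `H¹` and to the multiplier) is contained in the torsor below, given
by the polarisations alone. For 100% of the tuples of curves every polynomial relation of degree at most `ω(T)` and
height at most `T ^ ω(T)`, over any number field of degree at most `ω(T)`, between the periods and `2πi` holds on the
whole torsor, where `ω(T) → ∞`.
-/

set_option autoImplicit false

open Polynomial NumberField Filter

namespace Pool.Agent.Results.MP_f11a48_ag.AllHyperelliptic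

variable {N : ℕ}

/-- twice the genus of the curves `y² = F(x)`, `F` of degree `m + 1` -/
abbrev dim (m : ℕ) : ℕ := 2 * (m / 2)

/-- the polynomials `F_j = ∑ a_(j,k) x ^ k`, `k ≤ n_j + 1` -/
noncomputable def pol (n : Fin N → ℕ) (a : (Σ j, Fin (n j + 2)) → ℤ) (j : Fin N) : ℚ[X] :=
  ∑ k : Fin (n j + 2), C (a ⟨j, k⟩ : ℚ) * X ^ (k : ℕ)

/-- the tuples of polynomials of height at most `T`: `|a_(j,k)| ≤ T` -/
noncomputable def Box (n : Fin N → ℕ) (T : ℕ) : Finset ((Σ j, Fin (n j + 2)) → ℤ) :=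
  Fintype.piFinset fun _ => Finset.Icc (-(T : ℤ)) T

/-- `F` has degree `m + 1` and its roots are `e`, in increasing order with respect to `re + im` (so they are
distinct) -/
def Branch {m : ℕ} (F : ℚ[X]) (e : Fin (m + 1) → ℂ) : Prop :=
  F.coeff (m + 1) ≠ 0 ∧ F.map (algebraMap ℚ ℂ) = C (F.coeff (m + 1) : ℂ) * ∏ r, (X - C (e r)) ∧
    ∀ r s, r < s → (e r).re + (e r).im < (e s).re + (e s).im

/-- a branch of the square root of `c ∏ (x - e i)`, for `x` on the segment from `e l` to `e (l + 1)`: all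
arguments of the principal square roots have real part `≥ 0`, up to the first two (constant) factors -/
noncomputable def root {m : ℕ} (c : ℂ) (e : Fin (m + 1) → ℂ) (l : Fin m) (x : ℂ) : ℂ :=
  ((1 + Complex.I) ^ (1 / 2 : ℂ)) ^ (m + 2) * (c / (1 + Complex.I)) ^ (1 / 2 : ℂ) *
    Complex.I ^ (m % 2 + (l : ℕ) % 2) *
    ∏ i : Fin (m + 1), ((if (i : ℕ) ≤ l then x - e i else e i - x) / (1 + Complex.I)) ^ (1 / 2 : ℂ)

/-- the point of the segment from `p` to `q` -/
noncomputable def seg (p q : ℂ) (t : ℝ) : ℂ := (1 - t) * p + t * q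

/-- the period `∮ x ^ j dx / y`, `y² = c ∏ (x - e i)`, over the loop around the segment from `e l` to `e (l + 1)`, that
is twice the integral over the segment -/
noncomputable def period {m : ℕ} (c : ℂ) (e : Fin (m + 1) → ℂ) (l j : Fin m) : ℂ :=
  2 * ∫ t in (0 : ℝ)..1, (seg (e l.castSucc) (e l.succ) t) ^ (j : ℕ) /
    root c e l (seg (e l.castSucc) (e l.succ) t) * (e l.succ - e l.castSucc)

/-- the `i`-th form is `∑ form m F i k * x ^ k dx / y`: for `i < g = ⌊m / 2⌋` it is `x ^ i dx / y`, and for `i = g + i'`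
it is the form of the second kind `∑_(i'<k) (i' - k)/2 c_(i'+k+2) x ^ k dx / y`, where `F = ∑ c_k x ^ k` -/
noncomputable def form (m : ℕ) (F : ℚ[X]) (i k : ℕ) : ℚ :=
  if i < m / 2 then (if k = i then 1 else 0) else
    (if i - m / 2 < k then (((i - m / 2 : ℕ) : ℚ) - (k : ℚ)) / 2 * F.coeff (i - m / 2 + k + 2) else 0)

/-- the matrix of the periods of the `2 g` forms over the first `2 g` loops, `g = ⌊m / 2⌋` -/
noncomputable def periods {m : ℕ} (F : ℚ[X]) (e : Fin (m + 1) → ℂ) : Matrix (Fin (dim m)) (Fin (dim m)) ℂ :=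
  Matrix.of fun l i => ∑ k : Fin m,
    period (F.coeff (m + 1) : ℂ) e (Fin.castLE (by unfold dim; omega) l) k * (form m F (i : ℕ) (k : ℕ) : ℂ)

/-- the polarisation in terms of the forms: the standard symplectic matrix -/
def polDR (m : ℕ) : Matrix (Fin (dim m)) (Fin (dim m)) ℚ :=
  Matrix.of fun r s => if (s : ℕ) = r + m / 2 then 1 else if (r : ℕ) = s + m / 2 then -1 else 0

/-- the polarisation in terms of the loops: `2 (-1) ^ r` at `(r, s)`, `|r - s| = 1` -/
def polB (m : ℕ) : Matrix (Fin (dim m)) (Fin (dim m)) ℚ :=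
  Matrix.of fun r s => if (r : ℕ) = s + 1 ∨ (s : ℕ) = r + 1 then 2 * (-1) ^ (r : ℕ) else 0

/-- the complex points of the torsor: matrices `X_j` and `lam ≠ 0` with `X_j polDR X_jᵀ = lam polB` (a torsor under
`{(g_1, …, g_N) : g_j ∈ GSp_(2g_j), equal multipliers}`) -/
def Torsor (n : Fin N → ℕ) : Set ((∀ j, Matrix (Fin (dim (n j))) (Fin (dim (n j))) ℂ) × ℂ) :=
  {x | x.2 ≠ 0 ∧ ∀ j, x.1 j * (polDR (n j)).map (algebraMap ℚ ℂ) * (x.1 j).transpose =
    x.2 • (polB (n j)).map (algebraMap ℚ ℂ)}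

/-- the indices of the entries of the matrices -/
abbrev Ind (n : Fin N → ℕ) : Type := Σ j, Fin (dim (n j)) × Fin (dim (n j))

/-- the entries of the matrices `X_j` -/
def entries {n : Fin N → ℕ} (X : ∀ j, Matrix (Fin (dim (n j))) (Fin (dim (n j))) ℂ) : Ind n → ℂ :=
  fun q => X q.1 q.2.1 q.2.2

/-- the point with coordinates the entries of the matrices `X j` and `lam` -/
def point {n : Fin N → ℕ} (X : ∀ j, Matrix (Fin (dim (n j))) (Fin (dim (n j))) ℂ) (lam : ℂ) :
    Option (Ind n) → ℂ := fun o => o.elim lam (entries X)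

/-- every polynomial `P` of degree `≤ k` with coefficients in the ring of integers of a number field of degree `≤ k`,
all conjugates of the coefficients being `≤ H` in absolute value, with `P(X, 2πi) = 0`, vanishes on the torsor -/
def BoundedGPC (n : Fin N → ℕ) (X : ∀ j, Matrix (Fin (dim (n j))) (Fin (dim (n j))) ℂ) (k : ℕ) (H : ℝ) :
    Prop :=
  ∀ (K : Type) [Field K] [NumberField K] (φ : K →+* ℂ) (P : MvPolynomial (Option (Ind n)) (𝓞 K)),
    Module.finrank ℚ K ≤ k → P.totalDegree ≤ k →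
    (∀ s (ψ : K →+* ℂ), ‖ψ (algebraMap (𝓞 K) K (P.coeff s))‖ ≤ H) →
    (P.map (φ.comp (algebraMap (𝓞 K) K))).eval (point X (2 * Real.pi * Complex.I)) = 0 →
    ∀ x ∈ Torsor n, (P.map (φ.comp (algebraMap (𝓞 K) K))).eval (point x.1 x.2) = 0

/-- every relation `∑ ξ_b P_b(X) = 0`, `P_b` integral polynomials of degree `≤ k` with coefficients `≤ H` in absolute
value, holds on the fibre of the torsor over `2πi` -/
def RelativeGPC (n : Fin N → ℕ) (X : ∀ j, Matrix (Fin (dim (n j))) (Fin (dim (n j))) ℂ) (k : ℕ)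
    (ξ : Fin k → ℂ) (H : ℝ) : Prop :=
  ∀ P : Fin k → MvPolynomial (Ind n) ℤ, (∀ b, (P b).totalDegree ≤ k) →
    (∀ b s, |(((P b).coeff s : ℤ) : ℝ)| ≤ H) → ∑ b, ξ b * MvPolynomial.aeval (entries X) (P b) = 0 →
    ∀ Y, (Y, (2 * Real.pi * Complex.I : ℂ)) ∈ Torsor n → ∑ b, ξ b * MvPolynomial.aeval (entries Y) (P b) = 0

/-- Let `N ≥ 1` and let `n_1, …, n_N` be natural numbers. There is `ω : ℕ → ℕ`, `ω(T) → ∞`, such that for all `ε > 0` and
`T ≥ T₀(ε)` and all complex numbers `ξ_b`, `b < ω(T)`, all but a proportion `ε` of the tuples `F` of integral polynomials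
of degrees `≤ n_j + 1` with coefficients at most `T` in absolute value satisfy: `F_j` has degree `n_j + 1` and distinct
roots, with distinct `re + im`; the period matrices of the curves `y² = F_j(x)` and `2πi` form a point of the torsor; all
relations of degree `≤ ω(T)` and size `≤ T ^ ω(T)` over number fields of degree `≤ ω(T)` between the periods and `2πi`
hold on the torsor; all relations of degree `≤ ω(T)` between the periods with coefficients `∑ c_b ξ_b`, `c_b` integers,
`|c_b| ≤ T ^ ω(T)`, hold on its fibre over `2πi`. -/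
theorem result (hN : 1 ≤ N) (n : Fin N → ℕ) :
    ∃ ω : ℕ → ℕ, Tendsto ω atTop atTop ∧ ∀ ε : ℝ, 0 < ε → ∃ T₀ : ℕ, ∀ T : ℕ, T₀ ≤ T → ∀ ξ : Fin (ω T) → ℂ,
      ∃ E ⊆ Box n T, (E.card : ℝ) ≤ ε * (Box n T).card ∧ ∀ a ∈ Box n T, a ∉ E →
        ∃ e : ∀ j, Fin (n j + 1) → ℂ, (∀ j, Branch (pol n a j) (e j)) ∧
          ((fun j => periods (pol n a j) (e j)), (2 * Real.pi * Complex.I : ℂ)) ∈ Torsor n ∧
          BoundedGPC n (fun j => periods (pol n a j) (e j)) (ω T) ((T : ℝ) ^ ω T) ∧
          RelativeGPC n (fun j => periods (pol n a j) (e j)) (ω T) ξ ((T : ℝ) ^ ω T) := by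
  have : Nonempty (Fin N) := ⟨⟨0, hN⟩⟩
  obtain ⟨ω, hω, H⟩ := Pool.Agent.N121.AH.main n
  refine ⟨ω, hω, fun ε hε => ?_⟩
  obtain ⟨T₀, hT₀⟩ := H ε hε
  refine ⟨T₀, fun T hT ξ => ?_⟩
  obtain ⟨E, hE1, hE2, hE3⟩ := hT₀ T hT ξ
  have hbox : Pool.Agent.N121.OH.BX (Pool.Agent.N121.AH.wt n) T = Box n T := by
    unfold Pool.Agent.N121.OH.BX Box Pool.Agent.N121.AH.wt
    simp
  rw [hbox] at hE1 hE2 hE3
  refine ⟨E, hE1, hE2, fun a ha haE => ?_⟩
  obtain ⟨e, he, h1, h2, h3⟩ := hE3 a ha haE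
  have hmap : ∀ j, (pol n a j).map (algebraMap ℚ ℂ) =
      Pool.Agent.N121.AH.fp (fun m => ((a ⟨j, m⟩ : ℤ) : ℂ)) := by
    intro j
    unfold pol Pool.Agent.N121.AH.fp
    simp [Polynomial.map_sum]
  have hcoef : ∀ j (m : ℕ), (((pol n a j).coeff m : ℚ) : ℂ) =
      (Pool.Agent.N121.AH.fp (fun m => ((a ⟨j, m⟩ : ℤ) : ℂ))).coeff m := by
    intro j m
    rw [← hmap, Polynomial.coeff_map]
    rfl
  have hlead : ∀ j, (((pol n a j).coeff (n j + 1) : ℚ) : ℂ) = ((a ⟨j, Fin.last (n j + 1)⟩ : ℤ) : ℂ) := by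
    intro j
    rw [hcoef, Pool.Agent.N121.AH.fp_coeff, dif_pos (by omega)]
    rfl
  have htor : Torsor n = Pool.Agent.N121.AH.TorG n := by
    have hq : ∀ j, (polDR (n j)).map (algebraMap ℚ ℂ) = Pool.Agent.N121.AH.q0 ℂ (n j) := by
      intro j
      ext r s
      rw [Matrix.map_apply]
      unfold polDR Pool.Agent.N121.AH.q0
      rw [Matrix.of_apply, Matrix.of_apply]
      split_ifs <;> simp
    ext x
    unfold Torsor Pool.Agent.N121.AH.TorG
    simp only [Set.mem_ofPred_eq, hq]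
    rfl
  have hroot : ∀ j (c : ℂ) (l : Fin (n j)) (x : ℂ), root c (e j) l x = Pool.Agent.N121.AH.rtG c (e j) l x := by
    intro j c l x
    unfold root Pool.Agent.N121.AH.rtG Pool.Agent.N121.AH.scf Pool.Agent.N121.OH.rtF Pool.Agent.N121.AH.w0
      Pool.Agent.N121.AH.u0
    rw [pow_add Complex.I]
    ring
  have hper : ∀ j, periods (pol n a j) (e j) = Pool.Agent.N121.AH.PM n (fun q => ((a q : ℤ) : ℂ)) e j := by
    intro j
    ext l i
    unfold periods Pool.Agent.N121.AH.PM Pool.Agent.N121.AH.PF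
    rw [Matrix.of_apply, Matrix.mul_apply]
    refine Finset.sum_congr rfl fun k _ => ?_
    rw [Matrix.of_apply]
    congr 1
    · unfold period Pool.Agent.N121.AH.perG
      simp only [hroot, hcoef]
      rfl
    · unfold form Pool.Agent.N121.AH.cf
      rw [Matrix.of_apply]
      split_ifs
      · simp
      · simp
      · have h6 := hcoef j ((i : ℕ) - n j / 2 + k + 2)
        push_cast
        rw [h6]
        rfl
      · simp
  have hfun : (fun j => periods (pol n a j) (e j)) = Pool.Agent.N121.AH.PM n (fun q => ((a q : ℤ) : ℂ)) e :=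
    funext hper
  refine ⟨e, fun j => ⟨?_, ?_, (he j).2.2⟩, ?_, ?_, ?_⟩
  · intro h0
    have h4 := hlead j
    rw [h0] at h4
    apply (he j).1
    have h5 : ((a ⟨j, Fin.last (n j + 1)⟩ : ℤ) : ℂ) = 0 := by
      rw [← h4]
      simp
    exact_mod_cast h5
  · rw [hmap, hlead]
    exact (he j).2.1
  · rw [htor, hfun]
    exact h1
  · rw [hfun]
    intro K _ _ φ P hK hd hc h0 x hx
    rw [htor] at hx
    exact h2 K φ P hK hd hc h0 x hx
  · rw [hfun]
    intro P hd hc h0 Y hY
    rw [htor] at hY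
    exact h3 P hd hc h0 Y hY

end Pool.Agent.Results.MP_f11a48_ag.AllHyperelliptic
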