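import Pool.Agent.N208.CT.Main
import Pool.Agent.N208.BT.PDiv
import Pool.Agent.N208.BT.All

set_option autoImplicit false

/-!
# The centre of the period torsors of motives of abelian type

Let `A` be an abelian variety over `ℚ̄` and let `M` be any André motive over `ℚ̄` in the tensor
category generated by `h^1(A)` and the Tate motives. Let `P` be the matrix of the periods
of `M`, and let `G ⊆ GL(H_B(M))` be *any* algebraic group over `ℚ` such that the comparison
isomorphism of `M` is a point of a torsor of `G` defined over `ℚ̄`: `P T ∈ G(ℂ)` for some matrix `T`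
with algebraic entries. By theorems of Deligne and André the motivic Galois group of `M` is its
Mumford-Tate group `MT(M)`, and `P` is a point of a torsor of `MT(M)`. The conjecture of Grothendieck
says that `P` is a generic point of this torsor; in particular it predicts that every such `G`
contains `MT(M)`. (This is `Ω_M = Ω_M^{And}`. The prediction for all motives in the tensor category of
`M` is equivalent to: all de Rham-Betti classes in the tensor constructions of `M` are Hodge classes.)

**Theorem.**

1. For all abelian varieties `A` and all `M`, the group `G` contains the weights: if `W` is the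
   operator which acts on the part of weight `k` as multiplication with `k`, then `exp (t W)` is in `G`
   for all complex numbers `t`.
2. Let `A` have a unitary part at the places of a finite set `S` (`UnitaryPart`, see below), let the
   centre of the Lie algebra of the Hodge group of `A` be rigid (`RigidCentre`), and let the part of the
   Hodge group of `A` which acts trivially on the eigenspaces given by `S` act trivially on the
   Mumford-Tate domain of `M` (`DomainOf`). Then `G` contains `MT(M)`.

**The main example.** Let `F` be an imaginary quadratic field, and let `A₁` be an abelian variety over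
`ℚ̄` such that the centre of `End(A₁) ⊗ ℚ` is `F`, and the algebra `B` of the endomorphisms of
`H_1(A₁, ℚ)` which commute with `End(A₁)` is a division algebra of prime degree `p ≥ 3` over `F`; the
signature `(r, s)`, `r + s = p`, `r, s ≥ 1`, is arbitrary. (These are the abelian varieties of the compact
unitary Shimura varieties of Kottwitz and Clozel; `dim A₁ = p ^ 2` in the simplest case.) Then for *all*
motives `M` in the tensor category generated by `h^1(A₁)` and the Tate motives the group `G` contains
`MT(M)`: `Ω_M = Ω_M^{dRB} = Ω_M^{And}`, and all de Rham-Betti classes on `A₁ ^ n` and in the tensor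
constructions of `h^1(A₁)` are Hodge classes. The same is true if the signature is `(1, n)`, `n ≥ 2` even,
and `B` is a central simple algebra of degree `n + 1` over `F` which is not a matrix algebra over `F`.

To see this we apply the theorem to `A = A₁ × E₀`, where `E₀` is an elliptic curve with complex
multiplication by `F`; `M` is also a motive in the tensor category generated by `h^1(A)`. The unitary part
is given by `z = (√-d, 0)`. The Hodge group of `A` has a centre of dimension one: it is the set of the
`(α x, x)`, `x ∈ F`, `x̄ = - x`, with `α = ± (r - s) / p`. The endomorphism `0` does not generate it in the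
sense of `Generates`: the endomorphisms of `H_1(E₀, ℚ)` commute with `[𝔤, 𝔤]` but not with `F`. All other
elements are rational multiples of each other, so the centre is rigid. The condition on the domain is
satisfied since `S` contains the only place of the totally real subfield.

The previous results contained only the derived group of `MT(M)` in such cases (`DivisionAlgebraPeriods`
of helper144; `ProductsOfBalls`, `DivisionAlgebrasOfPrimeDegree`). For example `det_F h^1(A₁)` and the
Weil classes on `A₁ × E₀ ^ m` involve the centre: part 2 contains the algebraic independence, in the sense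
of `G`, between the periods of `E₀` and the derived group.

Similarly, if `F` is a CM field of degree four, `B` is of degree `p` as above (or the signatures are
`(1, n)`), all places with an indefinite signature are in `S` and are separated, and if
`|r_a - s_a|` is the same for both places, one can take `A = A₁ × C`, where `C` is the
abelian surface of the CM type given by the signs of `r_a - s_a` (if this CM type is simple): here the
centre is `{(α x, x)}`, `x ∈ F`, `x̄ = -x`, and the elements `x` which generate `F` satisfy no
relation `m₁ σ₁(x) + m₂ σ₂(x) = 0` with integers `m₁`, `m₂`.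

**The unitary part** (`UnitaryPart`). Let `z` be an element of the centre of `End(A) ⊗ ℚ` which is
skew-symmetric for the polarization, such that every element of the centre is a polynomial in `z` on
the image of `z`. For example let `A` be isogenous to `A₁ ^ k × A₂`, `A₁` simple,
`Hom(A₁, A₂) = 0`, let the centre of `End(A₁) ⊗ ℚ` be a CM field `F`, and `z ∈ F` a generator with
`z̄ = - z`. Let `B` be the algebra of the endomorphisms of the rational vector space `H_1(A, ℚ)` which
commute with `End(A)`, cut down to the image of `z`: a central simple algebra over `F`. Let `S` be a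
finite set of real numbers `a ≠ 0`, `S` and `- S` disjoint. We assume one of the following:

* (`BallType`) for `a ∈ S` the eigenspace of `i a` on the tangent space is a simple module over
  `End(A)`: so the signature is `(1, n)`. The numbers `± i a`, `a ∈ S`, are
  separated from each other by the elements of `F` in `B₁`, for all `ℚ`-algebras `B₁ ⊆ B` with
  `B = B₁ F`.
* (`DivisionType`) `B` is a division algebra of prime degree `p` over `F`, and both `i a` and `- i a` are
  eigenvalues of `z` on the tangent space. The numbers `± i a` and `± i b` are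
  separated for different `a`, `b` in `S`.

Nothing is assumed about periods: `AbVar` is the description of an abelian variety over `ℚ̄` by theta
functions (see `Pool/Agent/Y102/AVDefs.lean`, where it is explained why every abelian variety has it),
and the transcendence theorems which are used, the theorem of Schneider and Lang and the
transcendence of `π`, are proved in this repository. The group `G` is not assumed to be reductive.

## Motives

As `h^1(A)` is dual to `h^1(A)(1)`, the motive `M` is a direct factor of a sum of motives
`h^1(A) ^ {⊗ r i} (w i)`. Its Betti realization is a space of families of multilinear forms with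
rational values, in `r i` variables in `H_1(A, ℚ)`, with a basis `B`. It is the image of a motivated
projector, and the realizations of motivated classes are Hodge classes and de Rham-Betti classes; so
it is stable under the Lie algebra `𝔤` of the endomorphisms of `H_1(A, ℚ)` which annihilate all
classes that are Hodge classes and de Rham-Betti classes (`InLie`), and under the weights. The de Rham
realization has a basis which consists of combinations of products of elements of `H^1_dR(A / ℚ̄)`
with algebraic coefficients. The matrix `P` of the periods expresses it in terms of the basis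
`(2 π i) ^ (w i) B` of the Betti realization (`IsMotive`). By the theorem of Deligne `𝔤` is the Lie
algebra of the Hodge group of `A`, and its image in the endomorphisms of `M` is the Lie algebra of
the Hodge group of `M`.

## Proof

Let `L` be the Lie algebra of `G`, and let `𝔮` be the set of the `X` in `𝔤` whose action on `M` is in
`L` up to a multiple of the weight operator. By the theorem of Schneider and Lang `𝔮` acts semisimply on
`H_1(A, ℚ)`, with the same commutant as `𝔤` (`Pool.Agent.N208.AM.qM_full`). So `𝔮` is the sum of
`[𝔮, 𝔮]` and of elements of the centre of `𝔤`.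

1. The centre of `𝔤` acts on `M` by diagonalizable operators which commute with the weights; the
   eigenvalues on `M` are sums of the (purely imaginary) eigenvalues on `H_1(A, ℂ)`
   (`Pool.Agent.N755.CT.main`). Let `Z + c` be in `L`, where `Z` is given by an element of the centre
   and `c` is a rational multiple of the weight operator. The relations between the eigenvalues
   with coefficients in `ℕ` split into the real and the imaginary part. By the theorem on replicas
   (`Pool.Agent.R918.replica`: if `exp (t X) ∈ G` for all `t`, and all relations between the eigenvalues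
   of the diagonal matrix `X` hold for those of `Y`, then `exp (t Y) ∈ G`) `c` and `Z` are in `L`. A
   logarithmic derivative which does not annihilate `2 π i` gives an element with `c ≠ 0`
   (`CT.Wt_mem'`).
2. A generic element `X` of the intersection of `𝔮` with the centre of `𝔤` satisfies `Generates`, since
   `𝔮` has the same commutant as `𝔤`. By the theorem on replicas and the rigidity the action of the
   whole centre of `𝔤` on `M` is in `L` (`CT.cen_mem`).
3. By the theorems on the unitary parts (`BT.rpart`, `BT.rpartD`) the semisimple part of the complex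
   structure is in `L ⊗ ℝ`. So the Deligne torus maps to `G`.
-/

open Module Matrix Pool.Agent.Y102 Pool.Agent.W516.DR Pool.Agent.H204R3.GP

noncomputable section

namespace Pool.Agent.Results.MP_f11a48_ag.CentreOfPeriodTorsors

variable {g : ℕ} (A : AbVar g)

/-! ### The part of the abelian variety -/

/-- `P` is an endomorphism of `A` (up to isogeny), in terms of its action on `H_1(A, ℚ)`: it respects
the de Rham structure. (By the theorem of Bost, which is proved in `Pool.Agent.Y102.AbVar.hodge_end`,
these are the elements of `End(A) ⊗ ℚ`.) -/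
def IsEndo (P : Module.End ℚ A.H1) : Prop := IsDeRhamBettiEnd QBar A.dR P

/-- The endomorphism `X` of `H_1(A, ℚ)` commutes with the endomorphisms of `A`. -/
def Commutes (X : Module.End ℚ A.H1) : Prop := ∀ P, IsEndo A P → X * P = P * X

/-- `x` is an eigenvector of `z` for the eigenvalue `i a` (or zero); here `H_1(A, ℝ) = ℂ ^ g` is the
tangent space, and `A.ext z` is the real linear extension of `z`. -/
def Eigen (z : Module.End ℚ A.H1) (a : ℝ) (x : Fin g → ℂ) : Prop :=
  A.ext z x = ((a : ℂ) * Complex.I) • x

/-- The restriction of the endomorphism `X` to the image of `z` is `q(z)`. -/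
def IsPoly (z X : Module.End ℚ A.H1) (q : Polynomial ℚ) : Prop :=
  X * z = Polynomial.aeval z q * z

/-- The value `q(i a)` of the polynomial `q`. -/
def value (a : ℝ) (q : Polynomial ℚ) : ℂ := Polynomial.aeval ((a : ℂ) * Complex.I) q

/-- **The separation.** If the subalgebra `B₁` generates together with `z` the algebra of all
endomorphisms which commute with the endomorphisms of `A` (on the image of `z`), then `B₁` contains
(on the image of `z`) a polynomial in `z` which separates the numbers `i a` and `i b`. -/
def Separates (z : Module.End ℚ A.H1) (a b : ℝ) : Prop :=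
  ∀ B₁ : Subalgebra ℚ (Module.End ℚ A.H1), (∀ X ∈ B₁, Commutes A X) →
    (∀ X, Commutes A X → ∃ X' ∈ Algebra.adjoin ℚ ((B₁ : Set (Module.End ℚ A.H1)) ∪ {z}),
      X * z = X' * z) →
    ∃ q, ∃ X ∈ B₁, IsPoly A z X q ∧ value a q ≠ value b q

/-- `z` is an endomorphism in the centre of the algebra of the endomorphisms, it is skew-symmetric for the
polarization, and the elements of the centre are polynomials in `z` on the image of `z`. -/
structure CentralPart (z : Module.End ℚ A.H1) : Prop where
  endo : IsEndo A z
  central : ∀ P, IsEndo A P → z * P = P * z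
  skew : ∀ u v, A.om (z u) v + A.om u (z v) = 0
  generates : ∀ P, IsEndo A P → (∀ Q, IsEndo A Q → P * Q = Q * P) → ∃ q, IsPoly A z P q

/-- **Signature `(1, n)`**: for all `a ∈ S` the eigenspace of `i a` on the tangent space is a simple
module over the algebra of the endomorphisms; the numbers `± i a`, `a ∈ S`, are separated. -/
structure BallType (z : Module.End ℚ A.H1) (S : Finset ℝ) : Prop where
  eigen : ∀ a ∈ S, ∃ x, x ≠ 0 ∧ Eigen A z a x
  simple : ∀ a ∈ S, ∀ x y, x ≠ 0 → Eigen A z a x → Eigen A z a y →
    y ∈ Submodule.span ℂ {w | ∃ P, IsEndo A P ∧ w = A.ext P x}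
  separated : ∀ a b : ℝ, (a ∈ S ∨ -a ∈ S) → (b ∈ S ∨ -b ∈ S) → a ≠ b → Separates A z a b

/-- The commutant of the endomorphisms is a division algebra on the image of `z`: if `X` is not zero on
the image of `z` then it is injective there. -/
def IsDivision (z : Module.End ℚ A.H1) : Prop :=
  ∀ X, Commutes A X → (∀ v, X (z v) = 0 → z v = 0) ∨ ∀ v, X (z v) = 0

/-- The commutant of the endomorphisms (restricted to the image of `z`) is of dimension `p ^ 2` over its
centre `ℚ[z]`: the space of the `X z` has dimension `p ^ 2` times the dimension of the space of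
the `q(z) z`. -/
def HasDegree (z : Module.End ℚ A.H1) (p : ℕ) : Prop :=
  Set.finrank ℚ {Y | ∃ X, Commutes A X ∧ Y = X * z} =
    p ^ 2 * Set.finrank ℚ {Y | ∃ X q, IsPoly A z X q ∧ Y = X * z}

/-- **Division algebras of prime degree `p`**: `i a` and `- i a` are eigenvalues of `z` on the tangent
space for all `a ∈ S`; the commutant of the endomorphisms is a division algebra of degree `p` over its
centre `ℚ[z]` (on the image of `z`); `± i a` and `± i b` are separated for different `a`, `b` in `S`. -/
structure DivisionType (z : Module.End ℚ A.H1) (S : Finset ℝ) (p : ℕ) : Prop where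
  indefinite : ∀ a ∈ S, (∃ x, x ≠ 0 ∧ Eigen A z a x) ∧ ∃ x, x ≠ 0 ∧ Eigen A z (-a) x
  division : IsDivision A z
  prime : p.Prime
  degree : HasDegree A z p
  separated : ∀ a b : ℝ, (a ∈ S ∨ -a ∈ S) → (b ∈ S ∨ -b ∈ S) → a ≠ b → a ≠ -b →
    Separates A z a b

/-- **A unitary part**, with indefinite signatures at the places of the finite set `S`. -/
structure UnitaryPart (z : Module.End ℚ A.H1) (S : Finset ℝ) : Prop where
  part : CentralPart A z
  /-- the numbers `i a`, `a ∈ S`, are different from zero and not conjugate to each other -/
  disjoint : ∀ a ∈ S, a ≠ 0 ∧ -a ∉ S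
  type : BallType A z S ∨ ∃ p, DivisionType A z S p

/-! ### The Lie algebra -/

/-- The multilinear forms in `2m` variables in the rational homology. -/
abbrev Form (m : ℕ) : Type := MultilinearMap ℚ (fun _ : Fin m × Fin 2 => A.H1) ℚ

/-- `φ` is a de Rham-Betti class in `H^1(A) ^ {⊗ 2m} (m)`. -/
def IsDRB {m : ℕ} (φ : Form A m) : Prop :=
  IsDeRhamBettiForm QBar A.dR (2 * Real.pi * Complex.I) m φ

/-- `φ` is a Hodge class in `H^1(A) ^ {⊗ 2m} (m)`. -/
def IsHodge {m : ℕ} (φ : Form A m) : Prop := IsHodgeTensor (A.per : A.H1 →+ (Fin g → ℂ)) φ

/-- The endomorphism `X` annihilates the form `φ` (as a derivation). -/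
def Annihilates {m : ℕ} (X : Module.End ℚ A.H1) (φ : Form A m) : Prop :=
  ∀ v, ∑ k, φ (Function.update v k (X (v k))) = 0

/-- `X` is in the Lie algebra `𝔤`: it annihilates all classes that are Hodge classes and
de Rham-Betti classes. -/
def InLie (X : Module.End ℚ A.H1) : Prop :=
  ∀ (m : ℕ) (φ : Form A m), IsHodge A φ → IsDRB A φ → Annihilates A X φ

/-! ### Motives -/

variable {s n : ℕ} (r : Fin s → ℕ) (w : Fin s → ℤ)

/-- The Betti realization of the sum of the motives `h^1(A) ^ {⊗ r i} (w i)`: families of multilinear
forms in `r i` variables in the rational homology. -/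
abbrev Tensors : Type := ∀ i : Fin s, MultilinearMap ℚ (fun _ : Fin (r i) => A.H1) ℚ

variable {A r}

/-- `M` is the matrix of the action of the endomorphism `X` of the rational homology of `A` (as a
derivation) on the space of tensors with the basis `B`. -/
def IsLieMatrix (B : Fin n → Tensors A r) (X : Module.End ℚ A.H1)
    (M : Matrix (Fin n) (Fin n) ℚ) : Prop :=
  ∀ a i v, ∑ k, B a i (Function.update v k (X (v k))) = ∑ b, M b a * B b i v

/-- The subspace with the basis `B` is the Betti realization of a direct factor `M` of the sum of the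
motives `h^1(A) ^ {⊗ r i} (w i)`, and `P` is the matrix of the periods of `M` for the basis `B` and for
some basis of the de Rham realization of `M` over `ℚ̄`. -/
structure IsMotive (B : Fin n → Tensors A r) (P : Matrix (Fin n) (Fin n) ℂ) : Prop where
  /-- `B` is a basis of a subspace -/
  basis : LinearIndependent ℚ B
  /-- the subspace is stable under `𝔤` -/
  lie : ∀ X, InLie A X → ∃ M : Matrix (Fin n) (Fin n) ℚ, IsLieMatrix B X M
  /-- the subspace is stable under the weights -/
  weight : ∃ M : Matrix (Fin n) (Fin n) ℚ, ∀ a i v,
    ((r i : ℚ) - 2 * w i) * B a i v = ∑ b, M b a * B b i v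
  /-- the de Rham realization has a basis of elements with algebraic coefficients in terms of the
  tensor products of the elements of the basis of `H^1_dR(A / ℚ̄)` -/
  deRham : ∃ c : Fin n → ∀ i : Fin s, (Fin (r i) → Fin g ⊕ Fin g) → ℂ,
    (∀ a i J, IsAlgebraic ℚ (c a i J)) ∧ ∀ a i (v : Fin (r i) → A.H1),
      ∑ J, c a i J * ∏ k, A.dR (J k) (v k) =
        (2 * Real.pi * Complex.I) ^ (w i) * ∑ b, P b a * (B b i v : ℂ)
  /-- the matrix of the periods is invertible -/
  det : P.det ≠ 0

/-! ### The Mumford-Tate domain -/

/-- `N` is the matrix of the action on `M` of the multiplication with `i` on `H_1(A, ℝ) = ℂ ^ g` (as a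
derivation): the generator of the Lie algebra of the circle in the Hodge structure of `M`. -/
def IsComplexStructure (B : Fin n → Tensors A r) (N : Matrix (Fin n) (Fin n) ℝ) : Prop :=
  ∀ a i (j : Fin (r i) → Fin (2 * g)),
    ∑ k, ∑ l : Fin (2 * g), A.lam.repr (Complex.I • A.lam (j k)) l *
        (B a i (Function.update (fun p => Pi.single (j p) 1) k (Pi.single l 1)) : ℝ) =
      ∑ b, N b a * (B b i (fun p => Pi.single (j p) 1) : ℝ)

variable (A) in
/-- The derived algebra `[𝔤, 𝔤]`. -/
def derivedLie : Submodule ℚ (Module.End ℚ A.H1) :=
  Submodule.span ℚ {Z | ∃ X, InLie A X ∧ ∃ Y, InLie A Y ∧ Z = X * Y - Y * X}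

/-- The part of the Hodge group which acts trivially on the eigenspaces of `z` for `± i a`, `a ∈ S`, acts
trivially on the Mumford-Tate domain of `M`: if an element of `[𝔤, 𝔤] ⊗ ℝ`, which acts on
`H_1(A, ℝ) = ℂ ^ g` by `p.1` and on `M` by `p.2`, acts trivially on these eigenspaces, then `p.2`
commutes with the complex structure `N` of `M`. -/
def DomainOf (z : Module.End ℚ A.H1) (S : Finset ℝ) (B : Fin n → Tensors A r)
    (N : Matrix (Fin n) (Fin n) ℝ) : Prop :=
  ∀ p ∈ Submodule.span ℝ {p : Module.End ℝ (Fin g → ℂ) × Matrix (Fin n) (Fin n) ℝ |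
      ∃ X ∈ derivedLie A, ∃ M : Matrix (Fin n) (Fin n) ℚ, IsLieMatrix B X M ∧
        p = (A.ext X, M.map fun q => (q : ℝ))},
    (∀ a ∈ S, ∀ x, Eigen A z a x ∨ Eigen A z (-a) x → p.1 x = 0) → p.2 * N = N * p.2

/-- `W` is the matrix of the weight operator on `M`: multiplication with `k` on the part of weight
`k`. -/
def IsWeightMatrix (B : Fin n → Tensors A r) (W : Matrix (Fin n) (Fin n) ℚ) : Prop :=
  ∀ a i v, ((r i : ℚ) - 2 * w i) * B a i v = ∑ b, W b a * B b i v
/-! ### The centre -/

variable (A) in
/-- The algebra of the endomorphisms of `H_1(A, ℂ)`, as matrices for the basis of the lattice. -/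
def toC (X : Module.End ℚ A.H1) : Matrix (Fin (2 * g)) (Fin (2 * g)) ℂ :=
  Matrix.of fun i j => (X (Pi.single j 1) i : ℂ)

variable (A) in
/-- `X` is an element of the centre of `𝔤`. -/
def InCentre (X : Module.End ℚ A.H1) : Prop := InLie A X ∧ ∀ Y, InLie A Y → Y * X = X * Y

variable (A) in
/-- The endomorphisms which commute with `X` and with the derived algebra of `𝔤` commute with the
centre of `𝔤`. -/
def Generates (X : Module.End ℚ A.H1) : Prop :=
  ∀ T : Module.End ℚ A.H1,
    (∀ Y, InLie A Y → ∀ Z, InLie A Z → T * (Y * Z - Z * Y) = (Y * Z - Z * Y) * T) →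
    T * X = X * T → ∀ Z, InCentre A Z → T * Z = Z * T

variable (A) in
/-- All relations `∑ i, x i = 0` between eigenvalues of `X` imply the relation `∑ i, y i = 0` between
the eigenvalues of `Y` for the same eigenvectors. -/
def RelationsOf (X Y : Module.End ℚ A.H1) : Prop :=
  ∀ (r : ℕ) (v : Fin r → Fin (2 * g) → ℂ) (x y : Fin r → ℂ),
    (∀ i, v i ≠ 0 ∧ Matrix.mulVec (toC A X) (v i) = x i • v i ∧
      Matrix.mulVec (toC A Y) (v i) = y i • v i) → ∑ i, x i = 0 → ∑ i, y i = 0

variable (A) in
/-- The centre of `𝔤` is rigid: the relations between the eigenvalues of a generating element of the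
centre hold for all elements of the centre. -/
def RigidCentre : Prop :=
  ∀ X, InCentre A X → Generates A X → ∀ Y, InCentre A Y → RelationsOf A X Y

/-! ### Algebraic groups, torsors and the Mumford-Tate group -/

/-- A subgroup of `GL_R(ℂ)` defined by polynomials with rational coefficients. -/
def IsAlgebraicSubgroup {R : Type} [Fintype R] [DecidableEq R] (G : Subgroup (GL R ℂ)) : Prop :=
  ∃ I : Set (MvPolynomial (R × R) ℚ), ∀ x : GL R ℂ, x ∈ G ↔
    ∀ p ∈ I, MvPolynomial.aeval (fun b : R × R => (x : Matrix R R ℂ) b.1 b.2) p = 0

/-- The torsor `G · T⁻¹` of `G`: the matrices `F` such that `F T` is an element of `G`. It is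
defined over `ℚ̄` if `T` is a matrix with algebraic entries. -/
def torsor (G : Subgroup (GL (Fin n) ℂ)) (T : Matrix (Fin n) (Fin n) ℂ) :
    Set (Matrix (Fin n) (Fin n) ℂ) :=
  {F | ∃ x ∈ G, (x : Matrix (Fin n) (Fin n) ℂ) = F * T}

variable (A) in
/-- The Hodge structure of `H^1(A)`: the complex number `z` acts on `H_1(A, ℝ) = ℂ ^ g` by
multiplication, and on `H^1(A, ℝ)` by the transposed map, here in the basis of `H^1(A, ℚ)` which is
dual to the basis of the lattice. -/
def hodge (z : ℂ) : Matrix (Fin (2 * g)) (Fin (2 * g)) ℂ :=
  Matrix.of fun i j => ((A.lam.repr (z • A.lam i) j : ℝ) : ℂ)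

/-- `R` is the matrix of the action of the complex number `z` on `M`, in the Hodge structure given by
those of `H^1(A)` and of the Tate motives (`z` acts on `ℚ(1)` by `(z z̄)⁻¹`). -/
def IsHodgeMatrix (B : Fin n → Tensors A r) (z : ℂ) (R : Matrix (Fin n) (Fin n) ℂ) : Prop :=
  ∀ a i (j : Fin (r i) → Fin (2 * g)),
    ∑ j' : Fin (r i) → Fin (2 * g), (∏ k, hodge A z (j k) (j' k)) *
        (B a i (fun k => Pi.single (j' k) 1) : ℂ) =
      (z * (starRingEnd ℂ) z) ^ (w i) * ∑ b, R b a * (B b i (fun k => Pi.single (j k) 1) : ℂ)

/-- The Mumford-Tate group of `M`: the smallest algebraic group over `ℚ` which contains the image of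
the Deligne torus. -/
def mumfordTate (B : Fin n → Tensors A r) : Subgroup (GL (Fin n) ℂ) :=
  sInf {G | IsAlgebraicSubgroup G ∧ ∀ z : ℂ, z ≠ 0 → ∃ x ∈ G,
    IsHodgeMatrix w B z (x : Matrix (Fin n) (Fin n) ℂ)}

variable (A) in
theorem comm_iff (X : Module.End ℚ A.H1) : Commutes A X ↔ X ∈ N208.BT.CB A :=
  ⟨fun h P hP => h P (A.mem_EA.1 hP), fun h P hP => h P (A.mem_EA.2 hP)⟩

variable (A) in
theorem deg_eq {z : Module.End ℚ A.H1} {p : ℕ} (h : HasDegree A z p) :
    finrank ℚ ((N208.BT.CB A).map (LinearMap.mulRight ℚ z)) =
      p ^ 2 * finrank ℚ ((Algebra.adjoin ℚ {z}).toSubmodule.map (LinearMap.mulRight ℚ z)) := by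
  have e1 : Submodule.span ℚ {Y : Module.End ℚ A.H1 | ∃ X, Commutes A X ∧ Y = X * z} =
      (N208.BT.CB A).map (LinearMap.mulRight ℚ z) := by
    refine le_antisymm (Submodule.span_le.2 ?_) ?_
    · rintro _ ⟨X, hX, rfl⟩
      exact Submodule.mem_map_of_mem (f := LinearMap.mulRight ℚ z) ((comm_iff A X).1 hX)
    · rintro _ ⟨X, hX, rfl⟩
      exact Submodule.subset_span ⟨X, (comm_iff A X).2 hX, rfl⟩
  have e2 : Submodule.span ℚ {Y : Module.End ℚ A.H1 | ∃ X q, IsPoly A z X q ∧ Y = X * z} =
      (Algebra.adjoin ℚ {z}).toSubmodule.map (LinearMap.mulRight ℚ z) := by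
    refine le_antisymm (Submodule.span_le.2 ?_) ?_
    · rintro _ ⟨X, q, hX, rfl⟩
      have h1 : X * z = LinearMap.mulRight ℚ z (Polynomial.aeval z q) := hX
      rw [h1]
      refine Submodule.mem_map_of_mem (f := LinearMap.mulRight ℚ z) ?_
      exact Polynomial.aeval_mem_adjoin_singleton ℚ z
    · rintro _ ⟨X, hX, rfl⟩
      have hX' : X ∈ Algebra.adjoin ℚ {z} := hX
      rw [Algebra.adjoin_singleton_eq_range_aeval] at hX'
      obtain ⟨q, hq⟩ := hX'
      refine Submodule.subset_span ⟨X, q, ?_, rfl⟩
      have h2 : Polynomial.aeval z q = X := hq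
      show X * z = Polynomial.aeval z q * z
      rw [h2]
  have h1 := h
  unfold HasDegree Set.finrank at h1
  rw [e1, e2] at h1
  exact h1

variable (A) in
theorem UnitaryPart.toRPart {z : Module.End ℚ A.H1} {S : Finset ℝ} (h : UnitaryPart A z S) :
    N208.BT.RPart A (N208.BT.US A z S) := by
  rcases h.type with h1 | ⟨p, h1⟩
  · refine N208.BT.rpart (A := A) (z := z) (Sg := S) ⟨fun a ha => ?_, fun a ha => (h.disjoint a ha).2, ?_⟩
    · exact
        { mem := A.mem_EA.2 h.part.endo
          cen := fun P hP => h.part.central P (A.mem_EA.1 hP)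
          skew := h.part.skew
          gen := fun P hP hc => h.part.generates P (A.mem_EA.1 hP) fun Q hQ => hc Q (A.mem_EA.2 hQ)
          ne := (h.disjoint a ha).1
          ex := h1.eigen a ha
          simple := fun x y hx h2 h3 => by
            refine (Submodule.span_mono ?_) (h1.simple a ha x y hx h2 h3)
            rintro w ⟨P, hP, rfl⟩
            exact ⟨P, A.mem_EA.2 hP, rfl⟩ }
    · intro B₁ h2 h3 a b ha hb hab
      exact h1.separated a b ha hb hab B₁ (fun X hX => (comm_iff A X).2 (h2 X hX))
        fun X hX => h3 X ((comm_iff A X).1 hX)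
  · refine N208.BT.rpartD (A := A) (z := z) (Sg := S) (p := p)
      { mem := A.mem_EA.2 h.part.endo
        cen := fun P hP => h.part.central P (A.mem_EA.1 hP)
        skew := h.part.skew
        gen := fun P hP hc => h.part.generates P (A.mem_EA.1 hP) fun Q hQ => hc Q (A.mem_EA.2 hQ)
        ne := fun a ha => (h.disjoint a ha).1
        e1 := fun a ha => (h1.indefinite a ha).1
        e2 := fun a ha => (h1.indefinite a ha).2
        disj := fun a ha => (h.disjoint a ha).2
        sep := fun B₁ h2 h3 a b ha hb hab hab' => h1.separated a b ha hb hab hab' B₁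
          (fun X hX => (comm_iff A X).2 (h2 X hX)) fun X hX => h3 X ((comm_iff A X).1 hX)
        pd := ?_ }
    refine ⟨h1.prime, fun X hX h0 v hv => ?_, deg_eq A h1.degree⟩
    rcases h1.division X ((comm_iff A X).2 hX) with h2 | h2
    · exact h2 v hv
    · exact absurd (LinearMap.ext fun v => h2 v) h0

variable (A) in
theorem RigidCentre.toRigid (hz : RigidCentre A) : N208.CT.Rigid A := by
  intro X hX hg Y hY
  refine dom_of_matrix (hz X ⟨hX.1, hX.2⟩ (fun T hT hTX Z hZ => ?_) Y ⟨hY.1, hY.2⟩)
  exact hg T hT hTX Z ⟨hZ.1, hZ.2⟩

/-- **Theorem.** Let `M` be a motive in the tensor category generated by the motive `h^1(A)` of an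
abelian variety `A` over `ℚ̄` and the Tate motives, with the matrix `P` of periods. Let `G` be an
algebraic group over `ℚ` with a torsor over `ℚ̄` which contains `P`.

1. If `W` is the matrix of the weight operator on `M`, then `exp (t W)` is in `G` for all complex
   numbers `t`.
2. If `A` has a unitary part at the places of `S`, if the centre of the Lie algebra of the Hodge group of
   `A` is rigid, and if the part of the Hodge group of `A` which acts trivially on the eigenspaces
   for `± i a`, `a ∈ S`, acts trivially on the Mumford-Tate domain of `M`, with the complex structure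
   `N`, then the Mumford-Tate group of `M` is contained in `G`. -/
theorem result {g s n : ℕ} (A : AbVar g) (r : Fin s → ℕ) (w : Fin s → ℤ)
    (B : Fin n → Tensors A r) (P : Matrix (Fin n) (Fin n) ℂ) (hM : IsMotive w B P)
    (G : Subgroup (GL (Fin n) ℂ)) (hG : IsAlgebraicSubgroup G) (T : Matrix (Fin n) (Fin n) ℂ)
    (hT : ∀ i j, IsAlgebraic ℚ (T i j)) (hP : P ∈ torsor G T) :
    (∀ W, IsWeightMatrix w B W → ∀ t : ℂ, ∃ x ∈ G,
      (x : Matrix (Fin n) (Fin n) ℂ) = NormedSpace.exp (t • W.map fun q => (q : ℂ))) ∧
    ∀ (z : Module.End ℚ A.H1) (S : Finset ℝ) (N : Matrix (Fin n) (Fin n) ℝ),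
      UnitaryPart A z S → RigidCentre A → IsComplexStructure B N → DomainOf z S B N →
      mumfordTate w B ≤ G := by
  have hwr : ∀ W, IsWeightMatrix w B W → N208.AM.WRel w B W := by
    intro W h a i
    refine MultilinearMap.ext fun v => ?_
    rw [_root_.smul_apply, _root_.sum_apply, smul_eq_mul, h a i v]
    rfl
  obtain ⟨hM', Wt, hW⟩ : N208.AM.Mot w B P ∧ ∃ Wt, N208.AM.WRel w B Wt := by
    have hwt : ∃ M, N208.AM.WRel w B M := by
      obtain ⟨M, h⟩ := hM.weight
      exact ⟨M, hwr M h⟩
    refine ⟨⟨hM.basis, fun X hX => ?_, hwt, hM.det, hM.deRham⟩, hwt⟩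
    obtain ⟨M, h⟩ := hM.lie X hX
    refine ⟨M, fun a i => MultilinearMap.ext fun v => ?_⟩
    rw [N208.AM.dact_apply, _root_.sum_apply, h a i v]
    rfl
  have hrelL : ∀ X M, N208.AM.Rel B X M ↔ IsLieMatrix B X M := by
    intro X M
    constructor
    · intro h a i v
      have h1 := congrArg (fun φ : MultilinearMap ℚ (fun _ : Fin (r i) => A.H1) ℚ => φ v) (h a i)
      simp only [N208.AM.dact_apply, _root_.sum_apply, _root_.smul_apply, smul_eq_mul] at h1
      exact h1
    · intro h a i
      refine MultilinearMap.ext fun v => ?_
      rw [N208.AM.dact_apply, _root_.sum_apply, h a i v]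
      rfl
  have hb : ∀ j : Fin (2 * g), A.bas j = Pi.single j 1 := fun j => by
    unfold AbVar.bas
    rw [Pi.basisFun_apply]
  have hrel : ∀ z R, N208.AM.HRel w B z R → IsHodgeMatrix w B z R := by
    intro z R h a i j
    have h1 := h a i j
    simp only [hb] at h1
    exact h1
  -- the group
  have hdet : T.det ≠ 0 := by
    obtain ⟨x, -, hxT⟩ := hP
    intro h0
    have h1 : (x : Matrix (Fin n) (Fin n) ℂ).det = 0 := by
      rw [hxT, Matrix.det_mul, h0, mul_zero]
    exact (Matrix.GeneralLinearGroup.det x).ne_zero h1
  obtain ⟨T', h1, h2⟩ := Pool.Agent.R917.alg_inv hT hdet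
  obtain ⟨x, hx, hxT⟩ := hP
  have hH : N208.AM.PtM P _ := ⟨Pool.Agent.R917.algGrp_of hG, T, T', h1, h2, x, hx, hxT⟩
  refine ⟨fun W hWm t => ?_, fun z S N hU hR hN hD => ?_⟩
  · exact Pool.Agent.R917.exp_mem hH.grp fun d =>
      (N208.CT.Wt_mem' hM' (hwr W hWm) hH d).smul t
  -- the complex structure
  have hNR : N208.AM.RelR B AbVar.JJ N := by
    intro a i
    refine Basis.ext_multilinear (fun _ => A.lam) fun j => ?_
    have h1 := hN a i j
    rw [N208.AM.dact_apply, _root_.sum_apply]
    have h2 : (fun p => A.lam (j p)) = fun p => A.per (Pi.single (j p) 1) := by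
      funext p
      rw [← hb, A.per_bas]
    have h3 : ∀ b, (N b a • A.Phi (B b i)) (fun p => A.lam (j p)) =
        N b a * (B b i (fun p => Pi.single (j p) 1) : ℝ) := fun b => by
      rw [_root_.smul_apply, smul_eq_mul, h2, A.Phi_per]
    rw [Finset.sum_congr rfl fun b _ => h3 b, ← h1]
    refine Finset.sum_congr rfl fun k _ => ?_
    rw [AbVar.JJ_apply, ← A.lam.sum_repr (Complex.I • A.lam (j k)), MultilinearMap.map_update_sum]
    simp only [A.lam.sum_repr]
    refine Finset.sum_congr rfl fun l _ => ?_
    rw [MultilinearMap.map_update_smul, smul_eq_mul]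
    congr 1
    have h4 : A.lam l = A.per (Pi.single l 1) := by rw [← hb, A.per_bas]
    rw [h2, h4, N208.AM.update_per, A.Phi_per]
  have hα : N208.BT.DomU (N208.BT.US A z S) B N := by
    intro p hp h0
    refine hD p ?_ fun a ha x hx => h0 x ⟨a, ha, ?_⟩
    · refine (Submodule.span_mono ?_) hp
      rintro _ ⟨X, hX, M, hM, rfl⟩
      refine ⟨X, ?_, M, (hrelL _ _).1 hM, rfl⟩
      refine (Submodule.span_mono ?_) hX
      rintro _ ⟨X, hX, Y, hY, rfl⟩
      exact ⟨X, hX, Y, hY, rfl⟩
    · have hz : z ∈ A.EA := A.mem_EA.2 hU.part.endo
      rcases hx with hx | hx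
      · exact N208.BT.eig_mem_V0 hz rfl hx
      · exact N208.BT.eig_mem_V0 hz (by ring) hx
  refine sInf_le ⟨hG, fun u hu => ?_⟩
  obtain ⟨⟨y, hy, hy'⟩, h4⟩ := N208.CT.main_CT hM' hW hH (hR.toRigid A) (hU.toRPart A) hNR hα hu
  refine ⟨y, hy, ?_⟩
  rw [hy']
  exact hrel _ _ h4

end Pool.Agent.Results.MP_f11a48_ag.CentreOfPeriodTorsors
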