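import Pool.Agent.N166.ME.Main

set_option autoImplicit false

/-!
# All motives in the tensor category of an abelian variety of middle exterior type

Let `A` be an abelian variety over `ℚ̄`, let `𝔤` be the Lie algebra of its Hodge group, and assume that `A`
is of middle exterior type (`MiddleExterior`): `𝔤 ⊗ ℂ` is the sum of `k` Lie algebras `sl(2 m)`, one for
each colour, and `H_1(A, ℂ)` is a sum of copies of the tensor product, over the `k` colours, of the middle
exterior powers `Λ ^ m (ℂ ^ {2 m})` of the standard representations. For `m = 1` these are the abelian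
varieties of Mumford type (`k` copies of `sl(2)`, acting by the tensor product of the standard
representations; `k = 1`: elliptic curves without complex multiplication, and their powers), with any
number `k` of factors. For `m > 1` the Hodge groups are forms of `SU(1, 2 m - 1)`, acting on the middle
exterior power of the standard representation (Satake).

We show that for every motive `M` in the tensor category generated by `h^1(A)` and the Tate motives
`Ω^{dRB}_M = Ω^{And}_M`: every algebraic group `G ⊆ GL(H_B(M))` over `ℚ` such that the comparison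
isomorphism of `M` is a point of a torsor of `G` defined over `ℚ̄` contains the Mumford-Tate group
of `M` (nothing is said on the smallest torsor `Ω_M`, whose group need only be defined over `ℚ̄`), and all de Rham-Betti classes in the tensor powers are Hodge classes (and hence motivated, by
the theorem of André). No condition on the centre, on the field of the multiplications or on the rank
is needed.

## Motives

As `h^1(A)` is dual to `h^1(A)(1)`, the motive `M` is a direct factor of a sum of motives
`h^1(A) ^ {⊗ r i} (w i)`. Its Betti realization is a space of families of multilinear forms with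
rational values, in `r i` variables in `H_1(A, ℚ)`, with a basis `B`. It is the image of a motivated
projector, and the realizations of motivated classes are Hodge classes and de Rham-Betti classes; so
it is stable under the Lie algebra `𝔤` of the endomorphisms of `H_1(A, ℚ)` which annihilate all
classes that are Hodge classes and de Rham-Betti classes (`InLie`), and under the weights. The de Rham
realization has a basis which consists of combinations of products of elements of `H^1_dR(A / ℚ̄)`
with algebraic coefficients. The matrix `P` of the periods expresses it in terms of the basis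
`(2 π i) ^ (w i) B` of the Betti realization (`IsMotive`). By the theorem of Deligne `𝔤` is the Lie
algebra of the Hodge group of `A`.

Nothing is assumed about periods: `AbVar` is the description of an abelian variety over `ℚ̄` by theta
functions (see `Pool/Agent/Y102/AVDefs.lean`, where it is explained why every abelian variety has it),
and the transcendence theorems which are used, the theorem of Schneider and Lang and the
transcendence of `π`, are proved in this repository.

## Proof

Let `L` be the Lie algebra of `G`, `ρ` the action of `𝔤` on `M`, and let `𝔮` be the set of the `X` in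
`𝔤` such that `ρ(X)` is in `L` up to a multiple of the weight operator. By the theorem of Schneider and
Lang `𝔮` acts semisimply on `H_1(A, ℚ)`, with the same commutant as `𝔤` (`Pool.Agent.N208.AM.qM_full`). A
subalgebra of `𝔤` with these properties is equal to `𝔤`, for abelian varieties of middle exterior type
(`Pool.Agent.R918.full_middle`, a theorem on Lie algebras which is proved without the classification of
the irreducible subalgebras of the classical Lie algebras). As `𝔤` is perfect, `L` contains `ρ(𝔤)`, the
centre of `𝔤` acts trivially on all motives (`Pool.Agent.N166.ME.noCentre_of_perfect`), and since `2 π i`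
is transcendental `L` contains the weights; so `G` contains the image of the Deligne torus.
-/

open Module Matrix Pool.Agent.Y102 Pool.Agent.W516.DR Pool.Agent.H204R3.GP

noncomputable section

namespace Pool.Agent.Results.MP_f11a48_ag.MiddleExteriorMotives

variable {g : ℕ} (A : AbVar g)

/-! ### Classes and the Lie algebra -/

/-- The rational multilinear form `φ` in `r` variables in `H_1(A, ℚ)` and the array `c` of elements
of `ℚ̄` are compatible with the point `(F, t)`, in the twist `w`: the isomorphism given by `(F, t)`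
maps the element of `H^1_dR(A / ℚ̄) ^ {⊗ r} (w)` with the coordinates `c` to `φ`. -/
def Respects {r : ℕ} (F : Fin g ⊕ Fin g → (A.H1 →ₗ[ℚ] ℂ)) (t : ℂ) (w : ℤ)
    (c : (Fin r → Fin g ⊕ Fin g) → QBar) (φ : MultilinearMap ℚ (fun _ : Fin r => A.H1) ℚ) : Prop :=
  ∀ v, t ^ w * (φ v : ℂ) = ∑ J, algebraMap QBar ℂ (c J) * ∏ l, F (J l) (v l)

/-- `(c, φ)` is a de Rham-Betti class in `H^1(A) ^ {⊗ r} (w)`: it is compatible with the comparison
isomorphism. -/
def IsDRB {r : ℕ} (w : ℤ) (c : (Fin r → Fin g ⊕ Fin g) → QBar)
    (φ : MultilinearMap ℚ (fun _ : Fin r => A.H1) ℚ) : Prop :=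
  Respects A A.dR (2 * Real.pi * Complex.I) w c φ

/-- `φ` is a Hodge class: it extends to a real multilinear form on the tangent space which is
invariant under the multiplication by the complex numbers of absolute value `1`. -/
def IsHodge {κ : Type} (φ : MultilinearMap ℚ (fun _ : κ => A.H1) ℚ) : Prop :=
  IsHodgeTensor (A.per : A.H1 →+ (Fin g → ℂ)) φ

/-- The complex points of the torsor `Ω^{dRB}` of `h^1(A)`: the isomorphisms compatible with all
de Rham-Betti classes. -/
def OmegaDRB : Set ((Fin g ⊕ Fin g → (A.H1 →ₗ[ℚ] ℂ)) × ℂ) :=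
  {P | LinearIndependent ℂ P.1 ∧ P.2 ≠ 0 ∧
    ∀ (r : ℕ) (w : ℤ) (c : (Fin r → Fin g ⊕ Fin g) → QBar)
      (φ : MultilinearMap ℚ (fun _ : Fin r => A.H1) ℚ),
      IsDRB A w c φ → Respects A P.1 P.2 w c φ}

/-- The complex points of the torsor `Ω^{And}` of `h^1(A)`: the isomorphisms compatible with all
Hodge classes. -/
def OmegaAnd : Set ((Fin g ⊕ Fin g → (A.H1 →ₗ[ℚ] ℂ)) × ℂ) :=
  {P | LinearIndependent ℂ P.1 ∧ P.2 ≠ 0 ∧
    ∀ (r : ℕ) (w : ℤ) (c : (Fin r → Fin g ⊕ Fin g) → QBar)
      (φ : MultilinearMap ℚ (fun _ : Fin r => A.H1) ℚ),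
      IsDRB A w c φ → IsHodge A φ → Respects A P.1 P.2 w c φ}

/-- The endomorphism `X` annihilates the form `φ` (as a derivation). -/
def Annihilates {κ : Type} [Fintype κ] [DecidableEq κ] (X : Module.End ℚ A.H1)
    (φ : MultilinearMap ℚ (fun _ : κ => A.H1) ℚ) : Prop :=
  ∀ v, ∑ l, φ (Function.update v l (X (v l))) = 0

/-- `X` is in the Lie algebra `𝔤`: it annihilates all classes in `H^1(A) ^ {⊗ 2m} (m)` that are Hodge
classes and de Rham-Betti classes. -/
def InLie (X : Module.End ℚ A.H1) : Prop :=
  ∀ (m : ℕ) (φ : MultilinearMap ℚ (fun _ : Fin m × Fin 2 => A.H1) ℚ), IsHodge A φ →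
    IsDeRhamBettiForm QBar A.dR (2 * Real.pi * Complex.I) m φ → Annihilates A X φ

/-- The matrix of the extension of an endomorphism of `H_1(A, ℚ)` to `H_1(A, ℂ)`. -/
def toC (X : Module.End ℚ A.H1) : Matrix (Fin (2 * g)) (Fin (2 * g)) ℂ :=
  Matrix.of fun i j => (X (Pi.single j 1) i : ℂ)

/-- The complex Lie algebra `𝔤 ⊗ ℂ`, acting on `H_1(A, ℂ)`. -/
def lieC : Submodule ℂ (Matrix (Fin (2 * g)) (Fin (2 * g)) ℂ) :=
  Submodule.span ℂ {Y | ∃ X, InLie A X ∧ Y = toC A X}

/-! ### Middle exterior type -/

/-- The canonical anticommutation relations for the creation operators `a σ i` and the annihilation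
operators `b σ i` on a space `ℂ ^ N` (a Fock space: a sum of copies of the tensor product over the
colours `σ` of the exterior algebras of `ℂ ^ n`). -/
def Car {k n N : ℕ} (a b : Fin k → Fin n → Matrix (Fin N) (Fin N) ℂ) : Prop :=
  (∀ σ i τ j, a σ i * a τ j = -(a τ j * a σ i)) ∧
  (∀ σ i τ j, b σ i * b τ j = -(b τ j * b σ i)) ∧
  ∀ σ i τ j, a σ i * b τ j + b τ j * a σ i = if σ = τ ∧ i = j then 1 else 0

/-- The action on the Fock space of the matrix `x`, an element of the Lie algebra `gl(n)` with the
colour `σ`. -/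
def act {k n N : ℕ} (a b : Fin k → Fin n → Matrix (Fin N) (Fin N) ℂ) (σ : Fin k)
    (x : Matrix (Fin n) (Fin n) ℂ) : Matrix (Fin N) (Fin N) ℂ :=
  ∑ i, ∑ j, x i j • (a σ i * b σ j)

/-- **Middle exterior type.** There is a Fock space `ℂ ^ N` with `k` colours and `2 m` modes for each
colour such that `H_1(A, ℂ)` is isomorphic (by `Q`, with the left inverse `P`) to the part of it on
which the number of the particles is `m` for each colour, and `𝔤 ⊗ ℂ` is the sum of the `k` Lie
algebras `sl(2 m)`, acting on this part. -/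
def MiddleExterior (k m : ℕ) : Prop :=
  ∃ (N : ℕ) (a b : Fin k → Fin (2 * m) → Matrix (Fin N) (Fin N) ℂ)
    (P : Matrix (Fin (2 * g)) (Fin N) ℂ) (Q : Matrix (Fin N) (Fin (2 * g)) ℂ),
    Car a b ∧ P * Q = 1 ∧
    (∀ v, (∃ w, v = Q.mulVec w) ↔ ∀ σ, (act a b σ 1).mulVec v = (m : ℂ) • v) ∧
    lieC A = Submodule.span ℂ {Y | ∃ σ x, Matrix.trace x = 0 ∧ Y = P * act a b σ x * Q}

/-! ### Motives -/

variable {s n : ℕ} (r : Fin s → ℕ) (w : Fin s → ℤ)

/-- The Betti realization of the sum of the motives `h^1(A) ^ {⊗ r i} (w i)`: families of multilinear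
forms in `r i` variables in the rational homology. -/
abbrev Tensors : Type := ∀ i : Fin s, MultilinearMap ℚ (fun _ : Fin (r i) => A.H1) ℚ

variable {A r}

/-- `M` is the matrix of the action of the endomorphism `X` of the rational homology of `A` (as a
derivation) on the space of tensors with the basis `B`. -/
def IsLieMatrix (B : Fin n → Tensors A r) (X : Module.End ℚ A.H1)
    (M : Matrix (Fin n) (Fin n) ℚ) : Prop :=
  ∀ a i v, ∑ k, B a i (Function.update v k (X (v k))) = ∑ b, M b a * B b i v

/-- The subspace with the basis `B` is the Betti realization of a direct factor `M` of the sum of the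
motives `h^1(A) ^ {⊗ r i} (w i)`, and `P` is the matrix of the periods of `M` for the basis `B` and for
some basis of the de Rham realization of `M` over `ℚ̄`. -/
structure IsMotive (B : Fin n → Tensors A r) (P : Matrix (Fin n) (Fin n) ℂ) : Prop where
  /-- `B` is a basis of a subspace -/
  basis : LinearIndependent ℚ B
  /-- the subspace is stable under `𝔤` -/
  lie : ∀ X, InLie A X → ∃ M : Matrix (Fin n) (Fin n) ℚ, IsLieMatrix B X M
  /-- the subspace is stable under the weights -/
  weight : ∃ M : Matrix (Fin n) (Fin n) ℚ, ∀ a i v,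
    ((r i : ℚ) - 2 * w i) * B a i v = ∑ b, M b a * B b i v
  /-- the de Rham realization has a basis of elements with algebraic coefficients in terms of the
  tensor products of the elements of the basis of `H^1_dR(A / ℚ̄)` -/
  deRham : ∃ c : Fin n → ∀ i : Fin s, (Fin (r i) → Fin g ⊕ Fin g) → ℂ,
    (∀ a i J, IsAlgebraic ℚ (c a i J)) ∧ ∀ a i (v : Fin (r i) → A.H1),
      ∑ J, c a i J * ∏ k, A.dR (J k) (v k) =
        (2 * Real.pi * Complex.I) ^ (w i) * ∑ b, P b a * (B b i v : ℂ)
  /-- the matrix of the periods is invertible -/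
  det : P.det ≠ 0

/-! ### Algebraic groups, torsors and the Mumford-Tate group -/

/-- A subgroup of `GL_R(ℂ)` defined by polynomials with rational coefficients. -/
def IsAlgebraicSubgroup {R : Type} [Fintype R] [DecidableEq R] (G : Subgroup (GL R ℂ)) : Prop :=
  ∃ I : Set (MvPolynomial (R × R) ℚ), ∀ x : GL R ℂ, x ∈ G ↔
    ∀ p ∈ I, MvPolynomial.aeval (fun b : R × R => (x : Matrix R R ℂ) b.1 b.2) p = 0

/-- The torsor `G · T⁻¹` of `G`: the matrices `F` such that `F T` is an element of `G`. It is
defined over `ℚ̄` if `T` is a matrix with algebraic entries. -/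
def torsor (G : Subgroup (GL (Fin n) ℂ)) (T : Matrix (Fin n) (Fin n) ℂ) :
    Set (Matrix (Fin n) (Fin n) ℂ) :=
  {F | ∃ x ∈ G, (x : Matrix (Fin n) (Fin n) ℂ) = F * T}

variable (A) in
/-- The Hodge structure of `H^1(A)`: the complex number `z` acts on `H_1(A, ℝ) = ℂ ^ g` by
multiplication, and on `H^1(A, ℝ)` by the transposed map, here in the basis of `H^1(A, ℚ)` which is
dual to the basis of the lattice. -/
def hodge (z : ℂ) : Matrix (Fin (2 * g)) (Fin (2 * g)) ℂ :=
  Matrix.of fun i j => ((A.lam.repr (z • A.lam i) j : ℝ) : ℂ)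

/-- `R` is the matrix of the action of the complex number `z` on `M`, in the Hodge structure given by
those of `H^1(A)` and of the Tate motives (`z` acts on `ℚ(1)` by `(z z̄)⁻¹`). -/
def IsHodgeMatrix (B : Fin n → Tensors A r) (z : ℂ) (R : Matrix (Fin n) (Fin n) ℂ) : Prop :=
  ∀ a i (j : Fin (r i) → Fin (2 * g)),
    ∑ j' : Fin (r i) → Fin (2 * g), (∏ k, hodge A z (j k) (j' k)) *
        (B a i (fun k => Pi.single (j' k) 1) : ℂ) =
      (z * (starRingEnd ℂ) z) ^ (w i) * ∑ b, R b a * (B b i (fun k => Pi.single (j k) 1) : ℂ)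

/-- The Mumford-Tate group of `M`: the smallest algebraic group over `ℚ` which contains the image of
the Deligne torus. -/
def mumfordTate (B : Fin n → Tensors A r) : Subgroup (GL (Fin n) ℂ) :=
  sInf {G | IsAlgebraicSubgroup G ∧ ∀ z : ℂ, z ≠ 0 → ∃ x ∈ G,
    IsHodgeMatrix w B z (x : Matrix (Fin n) (Fin n) ℂ)}

/-- **Theorem.** Let `A` be an abelian variety over `ℚ̄` of middle exterior type.
1. All de Rham-Betti classes in the tensor powers of `h^1(A)` are Hodge classes, and
   `Ω^{dRB} = Ω^{And}` for `h^1(A)`.
2. Let `M` be a motive in the tensor category generated by `h^1(A)` and the Tate motives, with the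
   matrix `P` of periods, and let `G` be an algebraic group over `ℚ` with a torsor over `ℚ̄` which
   contains `P`. Then `G` contains the Mumford-Tate group of `M`. -/
theorem result {g : ℕ} (A : AbVar g) (k m : ℕ) (h : MiddleExterior A k m) :
    ((∀ (r : ℕ) (w : ℤ) (c : (Fin r → Fin g ⊕ Fin g) → QBar)
      (φ : MultilinearMap ℚ (fun _ : Fin r => A.H1) ℚ), IsDRB A w c φ → IsHodge A φ) ∧
    OmegaDRB A = OmegaAnd A) ∧
    ∀ (s n : ℕ) (r : Fin s → ℕ) (w : Fin s → ℤ) (B : Fin n → Tensors A r)
      (P : Matrix (Fin n) (Fin n) ℂ), IsMotive w B P →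
      ∀ G : Subgroup (GL (Fin n) ℂ), IsAlgebraicSubgroup G →
      ∀ T : Matrix (Fin n) (Fin n) ℂ, (∀ i j, IsAlgebraic ℚ (T i j)) → P ∈ torsor G T →
      mumfordTate w B ≤ G := by
  obtain ⟨K, a, b, p, q, ⟨h1, h2, h3⟩, h4, h5, h6⟩ := h
  obtain ⟨hf, hp⟩ := Pool.Agent.N166.ME.mid_props (A := A) (a := a) (b := b) h1 h2 h3 h4 h5 h6
  refine ⟨?_, ?_⟩
  · have hNA : A.NA ≤ A.LA := hf _ A.full_LA
    have hA : ∀ (m : ℕ) (φ : MultilinearMap ℚ (fun _ : Fin m × Fin 2 => A.H1) ℚ),
        IsDeRhamBettiForm QBar A.dR tau m φ → IsHodgeTensor (A.per : A.H1 →+ (Fin g → ℂ)) φ :=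
      fun m φ hφ => hodge_of_kills _ A.isRationalStructure φ
        fun Z hZ => hNA (A.MA_le_NA hZ) m φ hφ
    have hall : ∀ (r : ℕ) (w : ℤ) (c : (Fin r → Fin g ⊕ Fin g) → QBar)
        (φ : MultilinearMap ℚ (fun _ : Fin r => A.H1) ℚ), IsDRB A w c φ → IsHodge A φ :=
      fun r w c φ hφ => Pool.Agent.R918.hodge_all_of hA hφ
    refine ⟨hall, ?_⟩
    ext P
    constructor
    · rintro ⟨p1, p2, p3⟩
      exact ⟨p1, p2, fun r w c φ hφ _ => p3 r w c φ hφ⟩
    · rintro ⟨p1, p2, p3⟩
      exact ⟨p1, p2, fun r w c φ hφ => p3 r w c φ hφ (hall r w c φ hφ)⟩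
  · intro s n r w B P hM G hG T hT hP
    obtain ⟨hM', Wt, hW⟩ : Pool.Agent.N208.AM.Mot w B P ∧ ∃ Wt, Pool.Agent.N208.AM.WRel w B Wt := by
      have hwt : ∃ M, Pool.Agent.N208.AM.WRel w B M := by
        obtain ⟨M, h⟩ := hM.weight
        refine ⟨M, fun a i => MultilinearMap.ext fun v => ?_⟩
        rw [_root_.smul_apply, _root_.sum_apply, smul_eq_mul, h a i v]
        rfl
      refine ⟨⟨hM.basis, fun X hX => ?_, hwt, hM.det, hM.deRham⟩, hwt⟩
      obtain ⟨M, h⟩ := hM.lie X hX
      refine ⟨M, fun a i => MultilinearMap.ext fun v => ?_⟩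
      rw [Pool.Agent.N208.AM.dact_apply, _root_.sum_apply, h a i v]
      rfl
    have hb : ∀ j : Fin (2 * g), A.bas j = Pi.single j 1 := fun j => by
      unfold AbVar.bas
      rw [Pi.basisFun_apply]
    have hrel : ∀ z R, Pool.Agent.N208.AM.HRel w B z R → IsHodgeMatrix w B z R := by
      intro z R h a i j
      have h1 := h a i j
      simp only [hb] at h1
      exact h1
    have hdet : T.det ≠ 0 := by
      obtain ⟨x, -, hxT⟩ := hP
      intro h0
      have h1 : (x : Matrix (Fin n) (Fin n) ℂ).det = 0 := by
        rw [hxT, Matrix.det_mul, h0, mul_zero]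
      exact (Matrix.GeneralLinearGroup.det x).ne_zero h1
    obtain ⟨T', e1, e2⟩ := Pool.Agent.R917.alg_inv hT hdet
    obtain ⟨x, hx, hxT⟩ := hP
    have hH : Pool.Agent.N208.AM.PtM P _ :=
      ⟨Pool.Agent.R917.algGrp_of hG, T, T', e1, e2, x, hx, hxT⟩
    refine sInf_le ⟨hG, fun z hz => ?_⟩
    obtain ⟨R, ⟨x, hx, hx'⟩, h4⟩ := Pool.Agent.N166.ME.main_full hf hp hM' hW hH hz
    refine ⟨x, hx, ?_⟩
    rw [hx']
    exact hrel _ _ h4

end Pool.Agent.Results.MP_f11a48_ag.MiddleExteriorMotives
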